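import Pool.Agent.X307.BS.Main

/-!
# The Beilinson–Soulé conjecture for all fields and the motives `h^1` of curves

`A` is the rational motivic cohomology `H^i(F, ℚ(n))` of fields, `D` is the rational motivic
cohomology of the motives `h^1(Y)` of smooth projective curves `Y`, and `V k i n` is the statement that
the Zariski sheaf `H^i(ℤ(n))` on `Sm/k` is zero. They are given by abstract data with known properties.

Theorem. Let `κ` be a prime field (`ℚ` or a field with `p` elements), and let `Ω` be any uncountable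
algebraically closed field over `κ` (for example `Ω = ℂ` if `κ = ℚ`).

(1) The conjecture is true for all fields `k` over `κ` (`H^i(ℤ(n)) = 0` on `Sm/k` for all `i ≤ 0` and
all `n ≥ 1`) if and only if `H^0(h^1(Y), ℚ(n)) = 0` for all smooth projective curves `Y` over `Ω` and
all `n ≥ 1`.

(2) For each `N` the conjecture is true for all fields `k` over `κ` and all `n ≤ N` if and only if
`H^i(h^1(Y), ℚ(n)) = 0` for all smooth projective curves `Y` over `Ω`, all `i ≤ 0` and `1 ≤ n ≤ N`.

(3) If `H^1(h^1(Y), ℚ(n)) = 0` for all smooth projective curves `Y` over `Ω` and all `n ≥ 2`, then the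
conjecture is true for all fields over `κ`.

Q1 is the conjunction of the conjectures for the fields over the prime fields.
-/

set_option autoImplicit false

open Cardinal

namespace Pool.Agent.Results.MP_e2821c_ag.CurvesInDegreeZero

open Pool.Agent.X307.BS

/-- `κ` has no proper subfield. -/
def IsPrimeField (κ : Type) [Field κ] : Prop := ∀ S : Subfield κ, S = ⊤

/-- The groups `H F i n = H^i(F, ℚ(n))` of all fields, and the maps given by homomorphisms of
fields. -/
structure FieldCoh where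
  H : (F : Type) → [Field F] → ℤ → ℕ → Type
  [grp : (F : Type) → [Field F] → (i : ℤ) → (n : ℕ) → AddCommGroup (H F i n)]
  map : {F E : Type} → [Field F] → [Field E] → (F →+* E) → (i : ℤ) → (n : ℕ) → (H F i n →+ H E i n)

attribute [instance] FieldCoh.grp

/-- The groups of the fields over `κ`. -/
def FieldCoh.over (A : FieldCoh) (κ : Type) [Field κ] : Coh κ where
  H F _ _ i n := A.H F i n
  grp F _ _ i n := A.grp F i n
  map f i n := A.map f.toRingHom i n

/-- For all fields `K ⊂ L` (used for the function fields `L` of the smooth projective curves `Y` over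
`K`) the groups `(hOne K L).H F i n = H^i(h^1(Y)_F, ℚ(n))`, `F` over `K`, and the restriction
`gen : H^i(h^1(Y), ℚ(n)) → H^i(L, ℚ(n))` to the generic point. -/
structure HOneCoh (A : FieldCoh) where
  hOne : (K L : Type) → [Field K] → [Field L] → [Algebra K L] → Coh K
  gen : (K L : Type) → [Field K] → [Field L] → [Algebra K L] → (i : ℤ) → (n : ℕ) →
    ((hOne K L).H K i n →+ A.H L i n)

/-- The same data for the fields over `κ`. -/
def HOneCoh.over {A : FieldCoh} (D : HOneCoh A) (κ : Type) [Field κ] : CurveCoh (A.over κ) where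
  hOne K L _ _ _ := D.hOne K L
  gen K L _ _ _ _ i n := D.gen K L i n

/-- The theorems of Borel and Quillen for the algebraic closures `K` of `κ`:
`H^i(K, ℚ(n)) = 0` for `i ≤ 0` and `n ≥ 1`. -/
def BorelQuillen (A : FieldCoh) (κ : Type) [Field κ] : Prop :=
  ∀ (K : Type) [Field K] [Algebra κ K] [IsAlgClosed K] [Algebra.IsAlgebraic κ K] (i : ℤ) (n : ℕ),
    i ≤ 0 → Zero (A.over κ) K i (n + 1)

/-- The known properties of the data for the prime fields `κ`. -/
structure KnownProperties (A : FieldCoh) (D : HOneCoh A) : Prop where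
  isCoh : ∀ (κ : Type) [Field κ], IsPrimeField κ → IsCoh (A.over κ)
  continuous : ∀ (κ : Type) [Field κ], IsPrimeField κ → IsContinuous (A.over κ)
  curves : ∀ (κ : Type) [Field κ], IsPrimeField κ → IsCurveCoh (D.over κ)
  base : ∀ (κ : Type) [Field κ], IsPrimeField κ → BorelQuillen A κ

/-- `V k i n` (the Zariski sheaf `H^i(ℤ(n))` on `Sm/k` is zero) implies `H^i(k, ℚ(n)) = 0`; and it is
true for `i ≤ 0` and `n ≥ 1` if `H^i(F, ℚ(n)) = 0` for all finitely generated extension fields `F` of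
`k`: then `H^i(F, ℤ(n)) = 0`, as this group has no torsion by the norm residue theorem, and one uses
the Gersten resolution. -/
structure IsSheafVanishing (A : FieldCoh) (V : (k : Type) → [Field k] → ℤ → ℕ → Prop) : Prop where
  at_point : ∀ (k : Type) [Field k] (i : ℤ) (n : ℕ), V k i n → ∀ x : A.H k i n, x = 0
  of_fields : ∀ (k : Type) [Field k] (i : ℤ) (n : ℕ), i ≤ 0 →
    (∀ (F : Type) [Field F] [Algebra k F], Algebra.EssFiniteType k F →
      ∀ x : A.H F i (n + 1), x = 0) → V k i (n + 1)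

/-- Q1: the sheaf `H^i(ℤ(n))` on `Sm/k` is zero for all fields `k`, all `i ≤ 0` and all `n ≥ 1`. -/
def BeilinsonSoule (V : (k : Type) → [Field k] → ℤ → ℕ → Prop) : Prop :=
  ∀ (k : Type) [Field k] (i : ℤ) (n : ℕ), i ≤ 0 → V k i (n + 1)

/-- The same for all fields `k` over `κ`. -/
def BeilinsonSouleOver (V : (k : Type) → [Field k] → ℤ → ℕ → Prop) (κ : Type) [Field κ] : Prop :=
  ∀ (k : Type) [Field k] [Algebra κ k] (i : ℤ) (n : ℕ), i ≤ 0 → V k i (n + 1)

/-- The same for all fields `k` over `κ` and all weights `n ≤ N`. -/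
def BeilinsonSouleUpTo (V : (k : Type) → [Field k] → ℤ → ℕ → Prop) (κ : Type) [Field κ]
    (N : ℕ) : Prop :=
  ∀ (k : Type) [Field k] [Algebra κ k] (i : ℤ) (n : ℕ), i ≤ 0 → n < N → V k i (n + 1)

/-- `H^0(h^1(Y), ℚ(n)) = 0` for all smooth projective curves `Y` over `Ω` and all `n ≥ 1`. -/
def DegreeZero {A : FieldCoh} (D : HOneCoh A) (κ Ω : Type) [Field κ] [Field Ω] [Algebra κ Ω] :
    Prop :=
  ∀ n : ℕ, CurvesVanish (D.over κ) Ω 0 n

/-- `H^1(h^1(Y), ℚ(n)) = 0` for all smooth projective curves `Y` over `Ω` and all `n ≥ 2`. -/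
def DegreeOne {A : FieldCoh} (D : HOneCoh A) (κ Ω : Type) [Field κ] [Field Ω] [Algebra κ Ω] :
    Prop :=
  ∀ n : ℕ, CurvesVanish (D.over κ) Ω 1 (n + 1)

/-- `H^i(h^1(Y), ℚ(n)) = 0` for all smooth projective curves `Y` over `Ω`, all `i ≤ 0` and all `n` with
`1 ≤ n ≤ N`. -/
def DegreesUpTo {A : FieldCoh} (D : HOneCoh A) (κ Ω : Type) [Field κ] [Field Ω] [Algebra κ Ω]
    (N : ℕ) : Prop :=
  ∀ (i : ℤ) (n : ℕ), i ≤ 0 → n < N → CurvesVanish (D.over κ) Ω i n

theorem IsPrimeField.countable {κ : Type} [Field κ] (h : IsPrimeField κ) : Countable κ := by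
  have h1 : #(Subfield.closure (∅ : Set κ)) ≤ max #(∅ : Set κ) ℵ₀ :=
    Subfield.cardinalMk_closure_le_max _
  rw [h (Subfield.closure (∅ : Set κ))] at h1
  have h2 : #κ ≤ ℵ₀ := by
    calc #κ = #((⊤ : Subfield κ) : Type) := (Cardinal.mk_congr Subfield.topEquiv.toEquiv).symm
      _ ≤ max #(∅ : Set κ) ℵ₀ := h1
      _ = ℵ₀ := by simp
  exact Cardinal.mk_le_aleph0_iff.mp h2

theorem isPrimeField_bot (k : Type) [Field k] : IsPrimeField (⊥ : Subfield k) := by
  intro S
  rw [eq_top_iff]
  intro x _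
  have h1 : (⊥ : Subfield k) ≤ S.map (⊥ : Subfield k).subtype := bot_le
  obtain ⟨y, hy, hxy⟩ := h1 x.2
  have : y = x := Subtype.ext hxy
  exact this ▸ hy

section

variable {A : FieldCoh} {V : (k : Type) → [Field k] → ℤ → ℕ → Prop}

theorem zero_iff (hV : IsSheafVanishing A V) (κ : Type) [Field κ] (i : ℤ) (hi : i ≤ 0) (n : ℕ) :
    (∀ (k : Type) [Field k] [Algebra κ k], V k i (n + 1)) ↔
      ∀ (k : Type) [Field k] [Algebra κ k], Zero (A.over κ) k i (n + 1) := by
  constructor
  · exact fun h k _ _ x => hV.at_point k i (n + 1) (h k) x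
  · intro h k _ _
    refine hV.of_fields k i n hi (fun F _ _ _ x => ?_)
    letI : Algebra κ F := Algebra.compHom F (algebraMap κ k)
    exact h F x

theorem iff_weight (hV : IsSheafVanishing A V) {D : HOneCoh A} (hA : KnownProperties A D)
    {κ : Type} [Field κ] (hκ : IsPrimeField κ) (Ω : Type) [Field Ω] [Algebra κ Ω] [IsAlgClosed Ω]
    (hΩ : ℵ₀ < #Ω) (N : ℕ) : BeilinsonSouleUpTo V κ N ↔ DegreesUpTo D κ Ω N := by
  have := hκ.countable
  have hbase : ∀ (K : Type) [Field K] [Algebra κ K] [IsAlgClosed K] [Algebra.IsAlgebraic κ K]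
      (k : ℤ) (j : ℕ), k ≤ 0 → Zero (A.over κ) K k (j + 1) := fun K _ _ _ _ => hA.base κ hκ K
  constructor
  · intro h
    refine (iff_curves_weight (hA.isCoh κ hκ) (hA.continuous κ hκ) (hA.curves κ hκ) Ω hΩ le_rfl
      hbase N).mp ?_
    intro k j hk hj
    exact (zero_iff hV κ k hk j).mp (fun F _ _ => h F k j hk hj) Ω
  · intro h F _ _ i n hi hn
    refine (zero_iff hV κ i hi n).mpr ?_ F
    intro F _ _
    exact zero_of_hOne (hA.isCoh κ hκ) (hA.continuous κ hκ) (hA.curves κ hκ) Ω hΩ le_rfl hbase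
      (n := N) h n hn i hi F

theorem iff_degree (hV : IsSheafVanishing A V) {D : HOneCoh A} (hA : KnownProperties A D)
    {κ : Type} [Field κ] (hκ : IsPrimeField κ) (Ω : Type) [Field Ω] [Algebra κ Ω] [IsAlgClosed Ω]
    (hΩ : ℵ₀ < #Ω) : BeilinsonSouleOver V κ ↔ DegreeZero D κ Ω := by
  constructor
  · intro h n
    exact (iff_weight hV hA hκ Ω hΩ (n + 1)).mp (fun k _ _ i n hi _ => h k i n hi) 0 n le_rfl
      (Nat.lt_succ_self n)
  · intro h k _ _ i n hi
    refine (iff_weight hV hA hκ Ω hΩ (n + 1)).mpr ?_ k i n hi (Nat.lt_succ_self n)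
    intro i n hi _ K L _ _ _ _ _ _ _ _ hL
    exact zero_of_degree ((hA.curves κ hκ).isCoh K L hL) Ω hΩ (fun j => h j K L hL) i hi n

end

/-- The conjecture for the fields over a prime field `κ` is equivalent to the vanishing in degree `0`
for `h^1` of curves over one uncountable algebraically closed field `Ω`, and weight by weight; it
follows from the vanishing in degree `1` for `h^1` of curves. Q1 is the conjunction of the conjectures
over the prime fields. -/
theorem result (A : FieldCoh) (D : HOneCoh A) (hA : KnownProperties A D)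
    (V : (k : Type) → [Field k] → ℤ → ℕ → Prop) (hV : IsSheafVanishing A V) :
    (BeilinsonSoule V ↔ ∀ (κ : Type) [Field κ], IsPrimeField κ → BeilinsonSouleOver V κ) ∧
    ∀ (κ Ω : Type) [Field κ] [Field Ω] [Algebra κ Ω] [IsAlgClosed Ω], IsPrimeField κ → ℵ₀ < #Ω →
      (BeilinsonSouleOver V κ ↔ DegreeZero D κ Ω) ∧ (DegreeOne D κ Ω → BeilinsonSouleOver V κ) ∧
      ∀ N : ℕ, BeilinsonSouleUpTo V κ N ↔ DegreesUpTo D κ Ω N := by
  refine ⟨⟨fun h κ _ _ k _ _ i n hi => h k i n hi, fun h k _ i n hi =>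
    h (⊥ : Subfield k) (isPrimeField_bot k) k i n hi⟩, ?_⟩
  intro κ Ω _ _ _ _ hκ hΩ
  refine ⟨iff_degree hV hA hκ Ω hΩ, fun h => ?_, fun N => iff_weight hV hA hκ Ω hΩ N⟩
  refine (iff_degree hV hA hκ Ω hΩ).mpr (fun n K L _ _ _ _ _ _ _ _ hL => ?_)
  exact Zero.of_succ ((hA.curves κ hκ).isCoh K L hL) Ω hΩ (k := 0) (h n K L hL)

end Pool.Agent.Results.MP_e2821c_ag.CurvesInDegreeZero
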