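import Pool.Agent.X310.RdB

/-!
# The Beilinson–Soulé conjecture for real fields and fields with a central complex conjugation

Let `k` be a field of characteristic zero, for example `k = ℚ(t_1, …, t_m)`. `T : DescentFunctor k` models a functor `M` of
the finite extensions `E` of `k` with values in the `ℚ`-vector spaces, which has Galois descent and transfer; for example
`M(E) = ⊕ H^i(E, ℚ(n))`, the sum over some set of pairs `i`, `n` with `i ≤ 0 < n`. `T.Zero E` says that `M(E) = 0` (the
conjecture of Beilinson and Soulé for `E`, with rational coefficients).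

* Let `ψ : k → ℂ` be an embedding with values in `ℝ`, and let `c` be a complex conjugation on the algebraic closure of `k`
  extending the identity of `k` (`IsConjugation c`; it exists). Then `M(E) = 0` for all finite extensions `E` of `k` if and
  only if `M(E) = 0` for those `E` such that `E` has a real embedding or `c` is central on `E`, and such that `Aut(E/k)` has
  an irreducible `ℚ`-representation in which only `1` fixes nonzero vectors (so that `Aut(E/k)` is trivial or a Frobenius
  complement). For `k = ℚ` the fields with `Central c E` are the totally real fields and the CM fields.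
* If `Aut(E/k)` has no such representation, then `M(E) = 0` if and only if `M` vanishes on all smaller fields.
* Let `D i` be subgroups of `Aut(E/k)` such that each irreducible `ℚ`-representation has a nonzero vector fixed by some
  `D i`. Then `M(E) = 0` if and only if `M(E^{D i}) = 0` for all `i`.
* Let `τ ∈ Aut(E/k)`, `τ² = 1`. Then `M(E) = 0` if and only if `M` vanishes on the fixed fields of `τ` and of `comms τ`; and
  if and only if `M(E^τ) = 0`, if `τ ∈ comms τ`.
-/

set_option autoImplicit false

namespace Pool.Agent.Results.MP_e2821c_ag.RealAndCMFields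

open Pool.Agent.X307.MU Pool.Agent.X310.Rc Pool.Agent.X310.Rd Pool.Agent.X310.Rq

theorem result {k : Type} [Field k] [CharZero k] (T : DescentFunctor k) :
    (∀ ψ : k →+* ℂ, (∀ x, starRingEnd ℂ (ψ x) = ψ x) → ∃ c : Aut k, IsConjugation c) ∧
    (∀ c : Aut k, IsConjugation c →
      ((∀ E : Fld k, FiniteDimensional k E → T.Zero E) ↔
        ∀ E : Fld k, FiniteDimensional k E → (HasRealPlace E ∨ Central c E) → HasFreeRep (AutOf E) →
          T.Zero E)) ∧
    ∀ E : Fld k, FiniteDimensional k E →
      (¬ HasFreeRep (AutOf E) → (T.Zero E ↔ ∀ L, L < E → T.Zero L)) ∧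
      (∀ (ι : Type) (D : ι → Subgroup (AutOf E)), IsRich D → (T.Zero E ↔ ∀ i, T.Zero (fixOf E (D i)))) ∧
      ∀ τ : AutOf E, τ * τ = 1 →
        (T.Zero E ↔ T.Zero (fixOf E (Subgroup.zpowers τ)) ∧ T.Zero (fixOf E (comms τ))) ∧
        (τ ∈ comms τ → (T.Zero E ↔ T.Zero (fixOf E (Subgroup.zpowers τ)))) :=
  ⟨fun ψ hψ => exists_conj ψ hψ, fun c hc => ⟨fun h E hE _ _ => h E hE, fun h E hE => zero_all T hc h E hE⟩,
    fun E hE => ⟨zero_free T E, fun _ D hD => zero_iff T E D hD, zero_single T E⟩⟩

end Pool.Agent.Results.MP_e2821c_ag.RealAndCMFields
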