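import Pool.Agent.X308.C.Main

/-!
# MP_e2821c_ag: the Beilinson-Soulé conjecture and the groups `H^1(k(t_1, …, t_m), ℤ(n))`

`M` is the motivic cohomology `H^i(X, ℤ(n))` with integral coefficients, in the form of a bigraded
theory of schemes with some known properties (`KnownProperties`): functoriality; for all fields `F`
and `n ≥ 1` the exact sequence of Milnor type for `F ⊂ F(t)`; the groups `H^i(F, ℤ(n))` with
`i ≤ 0`, `n ≥ 1` have no torsion, since `H^(i-1)(F, ℤ/m(n)) = 0` (Voevodsky, Rost, Geisser-Levine);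
every class on a field comes from a field which is finite and separable over some `k(t_1, …, t_m)`,
`k` a prime field; a consequence of the Gersten resolution; and the ranks of `H^1(k, ℤ(n))`, `n ≥ 2`,
for `k = ℚ` (Borel) and `k = 𝔽_p` (Quillen).

Theorem. These are equivalent:
(1) Q1: the Zariski sheaf `H^i(ℤ(n))` on `Sm/k` is zero for all fields `k`, `n ≥ 1` and `i ≤ 0`;
(2) the same for `i = 0`;
(3) `H^1(F, ℚ(n)) → H^1(F(t), ℚ(n))` is surjective for all fields `F` and all `n ≥ 2`;
(4) for all `m ≥ 0` and `n ≥ 2` the rank of `H^1(𝔽_p(t_1, …, t_m), ℤ(n))` is `0` and the rank of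
`H^1(ℚ(t_1, …, t_m), ℤ(n))` is `1` for odd `n` and `0` for even `n`.
Moreover for fixed `i ≤ 0` and `n ≥ 1` the following are equivalent: the sheaf `H^i(ℤ(n))` on `Sm/k`
is zero for all `k`; `H^i(F, ℤ(n)) = 0` for all fields `F`; the map
`H^(i+1)(k, ℚ(n+1)) → H^(i+1)(k(t_1, …, t_m), ℚ(n+1))` is surjective for `k = ℚ` and all `k = 𝔽_p`
and all `m`.

Proof. The last part: if `H^i(κ, ℤ(n)) = 0` for all fields `κ` then all residues of the classes in
`H^(i+1)(F(t), ℤ(n+1))` vanish, so these classes come from `F`. Conversely a finite separable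
extension `E` of `K = k(t_1, …, t_m)` is a residue field `K[x]/(p)`, so that each class in
`H^i(E, ℤ(n))` is the residue of a class in `H^(i+1)(K(x), ℤ(n+1))`; if a multiple of the latter
comes from `k` then its residue is torsion, hence zero. For (2) ⇒ (1) one uses that `H^i(F, ℤ(n))`
is a quotient of `H^(i+1)(F(t), ℤ(n+1))`.
-/

set_option autoImplicit false

universe v

namespace Pool.Agent.Results.MP_e2821c_ag.RigidityInDegreeOne

open Pool.Agent.X308.C

/-- Q1 is equivalent to its part in degree `0`, to the surjectivity of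
`H^1(F, ℚ(n)) → H^1(F(t), ℚ(n))` for all fields `F` and `n ≥ 2`, and to a formula for the ranks of
`H^1(ℚ(t_1, …, t_m), ℤ(n))` and `H^1(𝔽_p(t_1, …, t_m), ℤ(n))`. Moreover the part of Q1 of a fixed
degree `i` and weight `n` is equivalent to the surjectivity of
`H^(i+1)(k, ℚ(n+1)) → H^(i+1)(k(t_1, …, t_m), ℚ(n+1))` for the prime fields `k` and all `m`. -/
theorem result (M : MotivicData.{v}) (hM : KnownProperties M) :
    List.TFAE [BeilinsonSoule M, DegreeZero M, Rigidity M, RankFormula M] ∧
    ∀ i n : ℤ, i ≤ 0 → 1 ≤ n →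
      ((∀ (k : Type) [Field k], Acyclic M k i n) ↔ VanishingOnFields M i n) ∧
      ((∀ (k : Type) [Field k], Acyclic M k i n) ↔ ConstantOnRationalFunctions M i n) :=
  ⟨beilinsonSoule_iff hM, fun _ _ hi hn =>
    ⟨(fixed_iff hM hi hn).out 0 1, (fixed_iff hM hi hn).out 0 3⟩⟩

end Pool.Agent.Results.MP_e2821c_ag.RigidityInDegreeOne
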